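import Pool.Agent.TH116.AE.Main

/-!
# The asymptotic expansion of the SU(2) invariants of L(25,2)
-/

namespace Pool.Agent.Results.MP_fcdc94_gt.LensSpaceCounterexample

open Finset Pool.Agent.TH116.AE

/-- Let `c 0 = 0` and let the other `c j` be multiples of `1 / 25` which are not integers. The
invariants `Z κ θ r` of the lens space `L(25,2)` have no expansion of the form required in the problem:
there are no exponents `d j`, phases `I j`, numbers `v j > 0` and coefficients `a j l` such that for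
each `E` the distance of `Z κ θ r` to the sum `S_E(r)` is `O(r ^ (max d - E - 1))`. -/
theorem result (κ : ℂ) (θ : ℝ) {m : ℕ} (c : Fin (m + 1) → ℝ) (hc0 : c 0 = 0)
    (hc : ∀ j, ∃ k : ℤ, 25 * c j = k) (hc' : ∀ j, j ≠ 0 → ¬ ∃ k : ℤ, c j = k) :
    ¬ ∃ (d I v : Fin (m + 1) → ℝ) (a : Fin (m + 1) → ℕ → ℂ), (∀ j, 0 < v j) ∧
      ∀ E : ℕ, ∃ C : ℝ, ∀ r : ℕ, 2 ≤ r →
        ‖Z κ θ r - S c d I v a E r‖ ≤
          C * (r : ℝ) ^ (univ.sup' univ_nonempty d - E - 1) := by
  rintro ⟨d, I, v, a, hv, H⟩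
  exact no_expansion κ θ c d I v a hc0 hc hc' (hv 0).ne' _ H

end Pool.Agent.Results.MP_fcdc94_gt.LensSpaceCounterexample
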